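import Pool.Agent.Y968.SV.Card

/-!
# Soluble groups in arbitrary varieties: counting the 3-generator groups is enough

`V` is an arbitrary variety of groups and `d` a natural number. If there are fewer than `2^ℵ₀`
isomorphism classes of 3-generator groups of derived length at most `d` in `V`, or if each of these
groups has fewer than `2^ℵ₀` normal subgroups, then all finitely generated groups of derived length
at most `d` in `V` are Hopfian.
-/

set_option autoImplicit false

namespace Pool.Agent.Results.MP_ecb9b3_al.ThreeGeneratorGroups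

/-- `G` belongs to the variety of groups defined by the laws `w = 1`, `w ∈ W`. -/
def InVariety (W : Set (FreeGroup ℕ)) (G : Type) [Group G] : Prop :=
  ∀ w ∈ W, ∀ f : ℕ → G, FreeGroup.lift f w = 1

/-- `G` is Hopfian: every surjective endomorphism is injective. -/
def Hopfian (G : Type) [Group G] : Prop :=
  ∀ φ : G →* G, Function.Surjective φ → Function.Injective φ

/-- `G` is generated by three elements. -/
def ThreeGenerated (G : Type) [Group G] : Prop :=
  ∃ a b c : G, Subgroup.closure {a, b, c} = ⊤

/-- `G` satisfies the maximal condition on normal subgroups: every normal subgroup of `G` is the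
normal closure of a finite set. -/
def MaxNormal (G : Type) [Group G] : Prop :=
  ∀ N : Subgroup G, N.Normal → ∃ S : Finset G, N = Subgroup.normalClosure (S : Set G)

/-- the lower central series of the group `H`, as subgroups of `G`. -/
def lcs {G : Type} [Group G] (H : Subgroup G) : ℕ → Subgroup G
  | 0 => H
  | k + 1 => ⁅lcs H k, H⁆

/-- `G` is nilpotent-by-(nilpotent-by-finite): it has a normal subgroup `H` of finite index such
that some term of the lower central series of `H` is nilpotent. -/
def NilpotentByNilpotentByFinite (G : Type) [Group G] : Prop :=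
  ∃ H : Subgroup G, H.Normal ∧ H.FiniteIndex ∧ ∃ k c : ℕ, lcs (lcs H k) c = ⊥

/-- there are fewer than `2^ℵ₀` isomorphism classes of 3-generator groups of derived length at most
`d` in the variety defined by `W`. -/
def FewThreeGenerated (W : Set (FreeGroup ℕ)) (d : ℕ) : Prop :=
  ∀ (ι : Type) (G : ι → Type) [∀ i, Group (G i)], (∀ i, ThreeGenerated (G i)) →
    (∀ i, InVariety W (G i)) → (∀ i, derivedSeries (G i) d = ⊥) →
    (∀ i j, Nonempty (G i ≃* G j) → i = j) → Cardinal.mk ι < Cardinal.continuum

/-- there are only countably many isomorphism classes of finitely generated groups of derived length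
at most `d` in the variety defined by `W`. -/
def CountablyMany (W : Set (FreeGroup ℕ)) (d : ℕ) : Prop :=
  ∀ (ι : Type) (G : ι → Type) [∀ i, Group (G i)], (∀ i, Group.FG (G i)) →
    (∀ i, InVariety W (G i)) → (∀ i, derivedSeries (G i) d = ⊥) →
    (∀ i j, Nonempty (G i ≃* G j) → i = j) → Countable ι

open Pool.Agent.H53R2 Pool.Agent.Y968.SV

theorem threeGen (W : Set (FreeGroup ℕ)) (N : Subgroup (RF W 3)) [N.Normal] :
    ThreeGenerated (RF W 3 ⧸ N) := by
  refine ⟨QuotientGroup.mk' N (RF.gen W 0), QuotientGroup.mk' N (RF.gen W 1),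
    QuotientGroup.mk' N (RF.gen W 2), ?_⟩
  rw [← gen_quot W 3 N]
  congr 1
  ext x
  constructor
  · rintro (rfl | rfl | rfl)
    · exact ⟨0, rfl⟩
    · exact ⟨1, rfl⟩
    · exact ⟨2, rfl⟩
  · rintro ⟨i, rfl⟩
    fin_cases i
    · exact Or.inl rfl
    · exact Or.inr (Or.inl rfl)
    · exact Or.inr (Or.inr rfl)

theorem fg_of_three {G : Type} [Group G] (h : ThreeGenerated G) : Group.FG G := by
  classical
  obtain ⟨a, b, c, habc⟩ := h
  refine ⟨⟨({a, b, c} : Finset G), ?_⟩⟩
  rw [← habc]
  congr 1
  simp

theorem lcs_eq {G : Type} [Group G] (H : Subgroup G) (k : ℕ) : lcs H k = Lw H k H := by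
  induction k with
  | zero => rfl
  | succ k ih => rw [Lw_succ, ← ih]; rfl

theorem nnf_of_vn {G : Type} [Group G] (h : VN G) : NilpotentByNilpotentByFinite G := by
  obtain ⟨H, h1, h2, k, c, h3⟩ := h
  refine ⟨H, h1, h2, k, c, ?_⟩
  rw [lcs_eq, lcs_eq, h3]

theorem three_of_equiv {G H : Type} [Group G] [Group H] (e : G ≃* H) (h : ThreeGenerated G) :
    ThreeGenerated H := by
  obtain ⟨a, b, c, habc⟩ := h
  refine ⟨e a, e b, e c, ?_⟩
  have h1 : ({e a, e b, e c} : Set H) = e.toMonoidHom '' {a, b, c} := by
    rw [Set.image_insert_eq, Set.image_insert_eq, Set.image_singleton]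
    rfl
  rw [h1, ← MonoidHom.map_closure, habc, ← MonoidHom.range_eq_map, MonoidHom.range_eq_top]
  exact e.surjective

/-- **Soluble groups in an arbitrary variety `V`.** The following are equivalent for every `d`: there
are fewer than `2^ℵ₀` isomorphism classes of 3-generator groups of derived length at most `d` in `V`;
each of these groups has fewer than `2^ℵ₀` normal subgroups; they are Hopfian; all finitely generated
groups of derived length at most `d` in `V` are Hopfian; these satisfy the maximal condition on
normal subgroups; there are only countably many of these. If this is the case, these groups are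
nilpotent-by-(nilpotent-by-finite). -/
theorem result (W : Set (FreeGroup ℕ)) (d : ℕ) :
    List.TFAE [
      FewThreeGenerated W d,
      ∀ (G : Type) [Group G], ThreeGenerated G → InVariety W G → derivedSeries G d = ⊥ →
        Cardinal.mk {N : Subgroup G // N.Normal} < Cardinal.continuum,
      ∀ (G : Type) [Group G], ThreeGenerated G → InVariety W G → derivedSeries G d = ⊥ →
        Hopfian G,
      ∀ (G : Type) [Group G], Group.FG G → InVariety W G → derivedSeries G d = ⊥ → Hopfian G,
      ∀ (G : Type) [Group G], Group.FG G → InVariety W G → derivedSeries G d = ⊥ → MaxNormal G,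
      CountablyMany W d] ∧
    (FewThreeGenerated W d → ∀ (G : Type) [Group G], Group.FG G → InVariety W G →
      derivedSeries G d = ⊥ → NilpotentByNilpotentByFinite G) := by
  have hquot : ∀ (N : Subgroup (RF (Wd W d) 3)) [N.Normal],
      InVariety W (RF (Wd W d) 3 ⧸ N) ∧ derivedSeries (RF (Wd W d) 3 ⧸ N) d = ⊥ := by
    intro N _
    have h1 : InVar (Wd W d) (RF (Wd W d) 3 ⧸ N) := (RF_inVar _ 3).quot N
    have : Countable (RF (Wd W d) 3 ⧸ N) := ((QuotientGroup.mk'_surjective N).comp
      (QuotientGroup.mk'_surjective (verb (Wd W d) 3))).countable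
    exact ⟨inVar_of_Wd h1, derived_of_Wd h1⟩
  have key : (∃ u : UI, ∀ (G : Type) [Group G], InVar (Wd W d) G → u.Grp G) →
      ∀ (G : Type) [Group G], Group.FG G → InVariety W G → derivedSeries G d = ⊥ →
        VN G ∧ MaxN G := by
    rintro ⟨u, hu⟩ G _ hfg hG hd
    exact U_main u d G (hu G (inVar_Wd hG hd)) hd
  have h1 : FewThreeGenerated W d →
      ∃ u : UI, ∀ (G : Type) [Group G], InVar (Wd W d) G → u.Grp G := by
    intro h
    refine few_UI fun ι N _ hne => ?_
    exact h ι (fun i => RF (Wd W d) 3 ⧸ N i) (fun i => threeGen _ (N i))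
      (fun i => (hquot (N i)).1) (fun i => (hquot (N i)).2) hne
  refine ⟨?_, fun h G _ hfg hG hd => nnf_of_vn (key (h1 h) G hfg hG hd).1⟩
  tfae_have 1 → 6 := fun h ι G _ hfg hG hd hne => countable_of_UI (h1 h) ι G hfg hG hd hne
  tfae_have 6 → 1 := by
    intro h ι G _ hfg hG hd hne
    have := h ι G (fun i => fg_of_three (hfg i)) hG hd hne
    exact (Cardinal.mk_le_aleph0_iff.2 this).trans_lt Cardinal.aleph0_lt_continuum
  tfae_have 1 → 5 := fun h G _ hfg hG hd N hN => (key (h1 h) G hfg hG hd).2.normalClosure N hN
  tfae_have 5 → 4 := by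
    intro h G _ hfg hG hd φ hφ
    exact hopfian_of_maxN (maxN_of_closure (h G hfg hG hd)) φ hφ
  tfae_have 4 → 3 := fun h G _ h3 hG hd => h G (fg_of_three h3) hG hd
  tfae_have 3 → 6 := by
    intro h ι G _ hfg hG hd hne
    refine countable_of_UI (W := W) (d := d) ?_ ι G hfg hG hd hne
    refine exists_UI _ fun N _ φ hφ => ?_
    exact h _ (threeGen _ N) (hquot N).1 (hquot N).2 φ hφ
  tfae_have 5 → 2 := by
    intro h G _ h3 hG hd
    have hfg := fg_of_three h3
    have := L_countable G hfg
    have := countable_normal (maxN_of_closure (h G hfg hG hd))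
    exact (Cardinal.mk_le_aleph0_iff.2 this).trans_lt Cardinal.aleph0_lt_continuum
  tfae_have 2 → 6 := by
    intro h ι G _ hfg hG hd hne
    refine countable_of_UI (W := W) (d := d) (cantor_UI fun N hN hinj => ?_) ι G hfg hG hd hne
    have hb := hquot (⊥ : Subgroup (RF (Wd W d) 3))
    have e : (RF (Wd W d) 3 ⧸ (⊥ : Subgroup (RF (Wd W d) 3))) ≃* RF (Wd W d) 3 :=
      QuotientGroup.quotientBot
    have h2 : InVar (Wd W d) (RF (Wd W d) 3) := RF_inVar _ 3
    have : Countable (RF (Wd W d) 3) := (QuotientGroup.mk'_surjective (verb (Wd W d) 3)).countable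
    have h3 := h (RF (Wd W d) 3) (three_of_equiv e (threeGen _ ⊥)) (inVar_of_Wd h2)
      (derived_of_Wd h2)
    have h4 : Cardinal.mk (ℕ → Bool) ≤
        Cardinal.mk {N : Subgroup (RF (Wd W d) 3) // N.Normal} := by
      refine Cardinal.mk_le_of_injective (f := fun s => ⟨N s, hN s⟩) fun s s' hs => ?_
      exact hinj (congrArg Subtype.val hs)
    have h5 : Cardinal.mk (ℕ → Bool) = Cardinal.continuum := by simp
    rw [h5] at h4
    exact absurd h4 (not_le.2 h3)
  tfae_finish

end Pool.Agent.Results.MP_ecb9b3_al.ThreeGeneratorGroups
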